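import Mathlib

/-!
# MP_859019_mp, ONE PURE STATE, block POSITIVITY (III): the Kelvin inversion

`g_j(a) = 1/(1 + x c_j(a))`, `s_j = c_j g_j`, `tau(x) = (P⁻¹ + x Σ_j y_j g_j)⁻¹`,
`Q(x) = Σ_ab |tau_ab|² Σ_j y_j (s_j(a) - s_j(b))²` is antitone on `[0,∞)`.
-/

set_option autoImplicit false
set_option linter.unusedSectionVars false

open scoped BigOperators ComplexOrder MatrixOrder Topology
open Set Matrix

namespace Pool.Agent.Lib_helper77.OPS

variable {n J : Type*} [Fintype n] [DecidableEq n] [Fintype J]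

attribute [local instance] Matrix.linftyOpNormedRing Matrix.linftyOpNormedAlgebra

theorem hasDerivAt_inv' {Z : ℝ → Matrix n n ℂ} {Z' : Matrix n n ℂ} {s : ℝ}
    (h : HasDerivAt Z Z' s) (hu : IsUnit (Z s)) :
    HasDerivAt (fun s => (Z s)⁻¹) (-((Z s)⁻¹ * Z' * (Z s)⁻¹)) s := by
  obtain ⟨u, hu⟩ := hu
  have h1 : HasFDerivAt (𝕜 := ℝ) Ring.inverse _ (u : Matrix n n ℂ) := hasFDerivAt_ringInverse u
  rw [hu] at h1
  have h4 := h1.comp_hasDerivAt s h
  have h5 : (Ring.inverse ∘ Z) = fun s : ℝ => (Z s)⁻¹ := by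
    funext s
    simp only [Function.comp]
    rw [← Matrix.nonsing_inv_eq_ringInverse]
  rw [h5] at h4
  have h6 : ((u⁻¹ : (Matrix n n ℂ)ˣ) : Matrix n n ℂ) = (Z s)⁻¹ := by
    rw [← hu]; exact (Matrix.coe_units_inv u)
  have h7 : (-((ContinuousLinearMap.mulLeftRight ℝ (Matrix n n ℂ)) ↑u⁻¹) ↑u⁻¹) Z' =
      -((Z s)⁻¹ * Z' * (Z s)⁻¹) := by simp [h6]
  rw [h7] at h4
  exact h4

/-- `g_j(a)` -/
noncomputable def gg (c : J → n → ℝ) (x : ℝ) (j : J) (a : n) : ℝ := (1 + x * c j a)⁻¹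

/-- `s_j(a)` -/
noncomputable def sr (c : J → n → ℝ) (x : ℝ) (j : J) (a : n) : ℝ := c j a * gg c x j a

noncomputable def dd (y : J → ℝ) (c : J → n → ℝ) (x : ℝ) (a : n) : ℝ :=
  ∑ j, y j * (x * gg c x j a)

/-- `H_a` -/
noncomputable def Hd (y : J → ℝ) (c : J → n → ℝ) (x : ℝ) (a : n) : ℝ :=
  ∑ j, y j * (gg c x j a) ^ 2

noncomputable def Zm (A : Matrix n n ℂ) (y : J → ℝ) (c : J → n → ℝ) (x : ℝ) : Matrix n n ℂ :=
  A + diagonal (fun a => (dd y c x a : ℂ))

noncomputable def tau (A : Matrix n n ℂ) (y : J → ℝ) (c : J → n → ℝ) (x : ℝ) : Matrix n n ℂ :=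
  (Zm A y c x)⁻¹

noncomputable def Kc (y : J → ℝ) (c : J → n → ℝ) (x : ℝ) (a b : n) : ℝ :=
  ∑ j, y j * (sr c x j a - sr c x j b) ^ 2

noncomputable def Kc' (y : J → ℝ) (c : J → n → ℝ) (x : ℝ) (a b : n) : ℝ :=
  -(2 * ∑ j, y j * ((sr c x j a - sr c x j b) ^ 2 * (sr c x j a + sr c x j b)))

noncomputable def Qf (A : Matrix n n ℂ) (y : J → ℝ) (c : J → n → ℝ) (x : ℝ) : ℝ :=
  ∑ a, ∑ b, Complex.normSq (tau A y c x a b) * Kc y c x a b

/-- `tau H tau` -/
noncomputable def tht (A : Matrix n n ℂ) (y : J → ℝ) (c : J → n → ℝ) (x : ℝ) : Matrix n n ℂ :=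
  tau A y c x * diagonal (fun a => (Hd y c x a : ℂ)) * tau A y c x

noncomputable def Qf' (A : Matrix n n ℂ) (y : J → ℝ) (c : J → n → ℝ) (x : ℝ) : ℝ :=
  ∑ a, ∑ b, (-(2 * (tht A y c x a b * star (tau A y c x a b)).re) * Kc y c x a b +
    Complex.normSq (tau A y c x a b) * Kc' y c x a b)

/-! ## the core: `Tr (C E + E C) Eᴴ ≥ 0` -/

theorem core {C : Matrix n n ℂ} (hC : C.PosSemidef) (k : n → ℝ) :
    0 ≤ (∑ a, ∑ b, ((C * C) a b * star (C a b) * (((k a - k b) ^ 2 : ℝ) : ℂ))).re := by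
  set Kd : Matrix n n ℂ := diagonal (fun a => (k a : ℂ)) with hKd
  set E : Matrix n n ℂ := C * Kd - Kd * C with hE
  have e1 : ∀ a b, E a b = C a b * ((k b : ℂ) - k a) := by
    intro a b
    rw [hE, Matrix.sub_apply, hKd, Matrix.mul_diagonal, Matrix.diagonal_mul]
    ring
  have e2 : C * E + E * C = C * C * Kd - Kd * (C * C) := by
    rw [hE]; noncomm_ring
  have e3 : ∀ a b, (C * E + E * C) a b = (C * C) a b * ((k b : ℂ) - k a) := by
    intro a b
    rw [e2, Matrix.sub_apply, hKd, Matrix.mul_diagonal, Matrix.diagonal_mul]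
    ring
  have e4 : (∑ a, ∑ b, ((C * C) a b * star (C a b) * (((k a - k b) ^ 2 : ℝ) : ℂ))) =
      ((C * E + E * C) * Eᴴ).trace := by
    rw [Matrix.trace]
    refine Finset.sum_congr rfl fun a _ => ?_
    rw [Matrix.diag_apply, Matrix.mul_apply]
    refine Finset.sum_congr rfl fun b _ => ?_
    rw [e3, Matrix.conjTranspose_apply, e1, star_mul']
    have : star ((k b : ℂ) - k a) = (k b : ℂ) - k a := by
      simp
    rw [this]
    push_cast
    ring
  rw [e4, Matrix.add_mul, Matrix.trace_add, Complex.add_re]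
  have p1 : 0 ≤ ((C * E * Eᴴ).trace).re := by
    have h1 : (C * E * Eᴴ).trace = (Eᴴ * C * E).trace := by
      rw [Matrix.trace_mul_comm, Matrix.mul_assoc]
    rw [h1]
    have h2 := (hC.conjTranspose_mul_mul_same E).trace_nonneg
    exact (Complex.le_def.1 h2).1
  have p2 : 0 ≤ ((E * C * Eᴴ).trace).re := by
    have h2 := (hC.mul_mul_conjTranspose_same E).trace_nonneg
    exact (Complex.le_def.1 h2).1
  linarith

/-! ## positivity of the data -/

section
variable {A : Matrix n n ℂ} {y : J → ℝ} {c : J → n → ℝ} {x : ℝ}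

theorem one_add_pos (hc : ∀ j a, 0 ≤ c j a) (hx : 0 ≤ x) (j : J) (a : n) :
    0 < 1 + x * c j a := by
  have := mul_nonneg hx (hc j a)
  linarith

theorem gg_pos (hc : ∀ j a, 0 ≤ c j a) (hx : 0 ≤ x) (j : J) (a : n) : 0 < gg c x j a :=
  inv_pos.2 (one_add_pos hc hx j a)

theorem sr_nonneg (hc : ∀ j a, 0 ≤ c j a) (hx : 0 ≤ x) (j : J) (a : n) : 0 ≤ sr c x j a :=
  mul_nonneg (hc j a) (gg_pos hc hx j a).le

theorem x_sr (hc : ∀ j a, 0 ≤ c j a) (hx : 0 ≤ x) (j : J) (a : n) :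
    x * sr c x j a = 1 - gg c x j a := by
  have h1 := (one_add_pos hc hx j a).ne'
  unfold sr gg; field_simp; ring

theorem dd_nonneg (hy : ∀ j, 0 ≤ y j) (hc : ∀ j a, 0 ≤ c j a) (hx : 0 ≤ x) (a : n) :
    0 ≤ dd y c x a :=
  Finset.sum_nonneg fun j _ => mul_nonneg (hy j) (mul_nonneg hx (gg_pos hc hx j a).le)

theorem Hd_pos (hy : ∀ j, 0 ≤ y j) {j0 : J} (hy0 : 0 < y j0) (hc0 : ∀ a, c j0 a = 0) (a : n) :
    0 < Hd y c x a := by
  unfold Hd
  refine Finset.sum_pos' (fun j _ => mul_nonneg (hy j) (sq_nonneg _)) ⟨j0, Finset.mem_univ _, ?_⟩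
  simp [gg, hc0, hy0]

theorem Zm_posDef (hA : A.PosDef) (hy : ∀ j, 0 ≤ y j) (hc : ∀ j a, 0 ≤ c j a) (hx : 0 ≤ x) :
    (Zm A y c x).PosDef := by
  refine hA.add_posSemidef ?_
  rw [Matrix.posSemidef_diagonal_iff]
  intro a
  have := dd_nonneg hy hc hx a
  exact_mod_cast this

theorem tau_psd (hA : A.PosDef) (hy : ∀ j, 0 ≤ y j) (hc : ∀ j a, 0 ≤ c j a) (hx : 0 ≤ x) :
    (tau A y c x).PosSemidef := (Zm_posDef hA hy hc hx).inv.posSemidef

theorem Kc_nonneg (hy : ∀ j, 0 ≤ y j) (a b : n) : 0 ≤ Kc y c x a b :=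
  Finset.sum_nonneg fun j _ => mul_nonneg (hy j) (sq_nonneg _)

theorem Kc'_nonpos (hy : ∀ j, 0 ≤ y j) (hc : ∀ j a, 0 ≤ c j a) (hx : 0 ≤ x) (a b : n) :
    Kc' y c x a b ≤ 0 := by
  unfold Kc'
  have : 0 ≤ ∑ j, y j * ((sr c x j a - sr c x j b) ^ 2 * (sr c x j a + sr c x j b)) :=
    Finset.sum_nonneg fun j _ => mul_nonneg (hy j)
      (mul_nonneg (sq_nonneg _) (add_nonneg (sr_nonneg hc hx j a) (sr_nonneg hc hx j b)))
  linarith

/-! ## the Kelvin identity -/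

theorem kelvin_id (hy : ∀ j, 0 ≤ y j) {j0 : J} (hy0 : 0 < y j0) (hc : ∀ j a, 0 ≤ c j a)
    (hc0 : ∀ a, c j0 a = 0) (hx : 0 < x) (a b : n) :
    Kc y c x a b = (x ^ 2)⁻¹ * (Hd y c x a * Hd y c x b *
      ∑ j, y j * (gg c x j a / Hd y c x a - gg c x j b / Hd y c x b) ^ 2) := by
  have ha := Hd_pos (c := c) (x := x) hy hy0 hc0 a
  have hb := Hd_pos (c := c) (x := x) hy hy0 hc0 b
  have h1 : ∑ j, y j * (gg c x j a / Hd y c x a - gg c x j b / Hd y c x b) ^ 2 =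
      (∑ j, y j * gg c x j a ^ 2) / Hd y c x a ^ 2 + (∑ j, y j * gg c x j b ^ 2) / Hd y c x b ^ 2 -
        2 * (∑ j, y j * (gg c x j a * gg c x j b)) / (Hd y c x a * Hd y c x b) := by
    rw [Finset.sum_div, Finset.sum_div, Finset.mul_sum, Finset.sum_div,
      ← Finset.sum_add_distrib, ← Finset.sum_sub_distrib]
    refine Finset.sum_congr rfl fun i _ => ?_
    field_simp
    ring
  have h2 : x ^ 2 * Kc y c x a b = (∑ j, y j * gg c x j a ^ 2) + (∑ j, y j * gg c x j b ^ 2) -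
      2 * ∑ j, y j * (gg c x j a * gg c x j b) := by
    rw [Kc, Finset.mul_sum, Finset.mul_sum, ← Finset.sum_add_distrib, ← Finset.sum_sub_distrib]
    refine Finset.sum_congr rfl fun i _ => ?_
    have e1 := x_sr hc hx.le i a
    have e2 := x_sr hc hx.le i b
    have : x ^ 2 * (y i * (sr c x i a - sr c x i b) ^ 2) =
        y i * (x * sr c x i a - x * sr c x i b) ^ 2 := by ring
    rw [this, e1, e2]
    ring
  have h3 : Kc y c x a b = (x ^ 2)⁻¹ * (x ^ 2 * Kc y c x a b) := by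
    field_simp
  rw [h3, h2, h1]
  congr 1
  change Hd y c x a + Hd y c x b - _ = Hd y c x a * Hd y c x b *
    (Hd y c x a / Hd y c x a ^ 2 + Hd y c x b / Hd y c x b ^ 2 - _)
  field_simp
  ring

/-! ## the first half of the derivative -/

theorem first_nonneg (hA : A.PosDef) (hy : ∀ j, 0 ≤ y j) {j0 : J} (hy0 : 0 < y j0)
    (hc : ∀ j a, 0 ≤ c j a) (hc0 : ∀ a, c j0 a = 0) (hx : 0 < x) :
    0 ≤ ∑ a, ∑ b, (tht A y c x a b * star (tau A y c x a b)).re * Kc y c x a b := by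
  set T := tau A y c x with hT
  set H := fun a => Hd y c x a with hH
  have Hp : ∀ a, 0 < H a := fun a => Hd_pos hy hy0 hc0 a
  set G : Matrix n n ℂ := diagonal (fun a => ((Real.sqrt (H a) : ℝ) : ℂ)) with hG
  have hGH : Gᴴ = G := by
    rw [hG, Matrix.diagonal_conjTranspose]
    congr 1
    funext a
    simp
  have hGG : G * G = diagonal (fun a => (H a : ℂ)) := by
    rw [hG, Matrix.diagonal_mul_diagonal]
    congr 1
    funext a
    rw [← Complex.ofReal_mul, Real.mul_self_sqrt (Hp a).le]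
  set C : Matrix n n ℂ := G * T * G with hCd
  have hC : C.PosSemidef := by
    have := (tau_psd (x := x) hA hy hc hx.le).mul_mul_conjTranspose_same G
    rwa [hGH] at this
  have c1 : ∀ a b, C a b = (Real.sqrt (H a) : ℂ) * T a b * (Real.sqrt (H b) : ℂ) := by
    intro a b
    rw [hCd, hG, Matrix.mul_diagonal, Matrix.diagonal_mul]
  have c2 : ∀ a b, (C * C) a b =
      (Real.sqrt (H a) : ℂ) * tht A y c x a b * (Real.sqrt (H b) : ℂ) := by
    intro a b
    have : C * C = G * tht A y c x * G := by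
      rw [hCd, tht, ← hT, ← hGG]
      noncomm_ring
    rw [this, hG, Matrix.mul_diagonal, Matrix.diagonal_mul]
  have key : ∀ i, 0 ≤ ∑ a, ∑ b, (tht A y c x a b * star (T a b)).re * (H a * H b) *
      (gg c x i a / H a - gg c x i b / H b) ^ 2 := by
    intro i
    have h := core hC (fun a => gg c x i a / H a)
    rw [Complex.re_sum] at h
    refine le_of_le_of_eq h ?_
    refine Finset.sum_congr rfl fun a _ => ?_
    rw [Complex.re_sum]
    refine Finset.sum_congr rfl fun b _ => ?_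
    rw [c1, c2]
    have ea : ((Real.sqrt (H a) : ℝ) : ℂ) * ((Real.sqrt (H a) : ℝ) : ℂ) = (H a : ℂ) := by
      rw [← Complex.ofReal_mul, Real.mul_self_sqrt (Hp a).le]
    have eb : ((Real.sqrt (H b) : ℝ) : ℂ) * ((Real.sqrt (H b) : ℝ) : ℂ) = (H b : ℂ) := by
      rw [← Complex.ofReal_mul, Real.mul_self_sqrt (Hp b).le]
    have : (((Real.sqrt (H a) : ℝ) : ℂ) * tht A y c x a b * ((Real.sqrt (H b) : ℝ) : ℂ)) *
        star (((Real.sqrt (H a) : ℝ) : ℂ) * T a b * ((Real.sqrt (H b) : ℝ) : ℂ)) *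
        (((gg c x i a / H a - gg c x i b / H b) ^ 2 : ℝ) : ℂ) =
        (tht A y c x a b * star (T a b)) *
          ((H a * H b * (gg c x i a / H a - gg c x i b / H b) ^ 2 : ℝ) : ℂ) := by
      rw [star_mul', star_mul']
      have s1 : star ((Real.sqrt (H a) : ℝ) : ℂ) = ((Real.sqrt (H a) : ℝ) : ℂ) :=
        Complex.conj_ofReal _
      have s2 : star ((Real.sqrt (H b) : ℝ) : ℂ) = ((Real.sqrt (H b) : ℝ) : ℂ) :=
        Complex.conj_ofReal _
      rw [s1, s2]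
      push_cast
      rw [← ea, ← eb]
      ring
    rw [this, Complex.re_mul_ofReal]
    ring
  have hsum : ∑ a, ∑ b, (tht A y c x a b * star (T a b)).re * Kc y c x a b =
      (x ^ 2)⁻¹ * ∑ i, y i * ∑ a, ∑ b, (tht A y c x a b * star (T a b)).re * (H a * H b) *
        (gg c x i a / H a - gg c x i b / H b) ^ 2 := by
    have e1 : ∀ i, y i * ∑ a, ∑ b, (tht A y c x a b * star (T a b)).re * (H a * H b) *
        (gg c x i a / H a - gg c x i b / H b) ^ 2 =
        ∑ a, ∑ b, y i * ((tht A y c x a b * star (T a b)).re * (H a * H b) *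
        (gg c x i a / H a - gg c x i b / H b) ^ 2) := by
      intro i
      rw [Finset.mul_sum]
      refine Finset.sum_congr rfl fun a _ => ?_
      rw [Finset.mul_sum]
    simp only [e1]
    have e2 : ∀ f : J → n → n → ℝ, ∑ i, ∑ a, ∑ b, f i a b = ∑ a, ∑ b, ∑ i, f i a b := by
      intro f
      rw [Finset.sum_comm]
      refine Finset.sum_congr rfl fun a _ => ?_
      rw [Finset.sum_comm]
    rw [e2, Finset.mul_sum]
    refine Finset.sum_congr rfl fun a _ => ?_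
    rw [Finset.mul_sum]
    refine Finset.sum_congr rfl fun b _ => ?_
    rw [kelvin_id hy hy0 hc hc0 hx a b, Finset.mul_sum, Finset.mul_sum, Finset.mul_sum,
      Finset.mul_sum]
    refine Finset.sum_congr rfl fun i _ => ?_
    ring
  rw [hsum]
  exact mul_nonneg (by positivity) (Finset.sum_nonneg fun i _ => mul_nonneg (hy i) (key i))

theorem Qf'_nonpos (hA : A.PosDef) (hy : ∀ j, 0 ≤ y j) {j0 : J} (hy0 : 0 < y j0)
    (hc : ∀ j a, 0 ≤ c j a) (hc0 : ∀ a, c j0 a = 0) (hx : 0 < x) : Qf' A y c x ≤ 0 := by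
  have h1 := first_nonneg hA hy hy0 hc hc0 hx
  have h2 : 0 ≤ ∑ a, ∑ b, Complex.normSq (tau A y c x a b) * (-Kc' y c x a b) :=
    Finset.sum_nonneg fun a _ => Finset.sum_nonneg fun b _ =>
      mul_nonneg (Complex.normSq_nonneg _) (by linarith [Kc'_nonpos (x := x) hy hc hx.le a b])
  have h3 : Qf' A y c x = -(2 * ∑ a, ∑ b, (tht A y c x a b * star (tau A y c x a b)).re *
      Kc y c x a b) - ∑ a, ∑ b, Complex.normSq (tau A y c x a b) * (-Kc' y c x a b) := by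
    rw [Qf', Finset.mul_sum, ← Finset.sum_neg_distrib, ← Finset.sum_sub_distrib]
    refine Finset.sum_congr rfl fun a _ => ?_
    rw [Finset.mul_sum, ← Finset.sum_neg_distrib, ← Finset.sum_sub_distrib]
    refine Finset.sum_congr rfl fun b _ => ?_
    ring
  rw [h3]; linarith

/-! ## the derivative -/

theorem hasDerivAt_gg (hc : ∀ j a, 0 ≤ c j a) (hx : 0 ≤ x) (j : J) (a : n) :
    HasDerivAt (fun x => gg c x j a) (-(c j a) * (gg c x j a) ^ 2) x := by
  have h1 : 1 + x * c j a ≠ 0 := (one_add_pos hc hx j a).ne'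
  have h2 := (((hasDerivAt_id x).mul_const (c j a)).const_add 1).inv h1
  refine (h2.congr_deriv ?_)
  simp only [id, gg]
  field_simp

theorem hasDerivAt_sr (hc : ∀ j a, 0 ≤ c j a) (hx : 0 ≤ x) (j : J) (a : n) :
    HasDerivAt (fun x => sr c x j a) (-(sr c x j a) ^ 2) x := by
  have h2 := (hasDerivAt_gg hc hx j a).const_mul (c j a)
  refine (h2.congr_deriv ?_)
  simp only [sr]
  ring

theorem hasDerivAt_dd (hc : ∀ j a, 0 ≤ c j a) (hx : 0 ≤ x) (a : n) :
    HasDerivAt (fun x => dd y c x a) (Hd y c x a) x := by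
  have h1 : ∀ j ∈ (Finset.univ : Finset J), HasDerivAt (fun x => y j * (x * gg c x j a))
      (y j * (gg c x j a) ^ 2) x := by
    intro j _
    have h2 := ((hasDerivAt_id x).mul (hasDerivAt_gg hc hx j a)).const_mul (y j)
    refine h2.congr_deriv ?_
    have h3 := (one_add_pos hc hx j a).ne'
    simp only [id, gg]
    field_simp
    ring
  exact HasDerivAt.fun_sum h1

theorem hasDerivAt_diag {f : ℝ → n → ℝ} {f' : n → ℝ} {s : ℝ}
    (h : ∀ a, HasDerivAt (fun x => f x a) (f' a) s) :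
    HasDerivAt (fun x => (diagonal (fun a => (f x a : ℂ)) : Matrix n n ℂ))
      (diagonal (fun a => (f' a : ℂ))) s := by
  have h2 : HasDerivAt (fun x => (fun a => (f x a : ℂ)) : ℝ → n → ℂ) (fun a => (f' a : ℂ)) s := by
    rw [hasDerivAt_pi]
    intro a
    exact (h a).ofReal_comp
  let L : (n → ℂ) →ₗ[ℝ] Matrix n n ℂ := Matrix.diagonalLinearMap n ℝ ℂ
  have h3 := (LinearMap.toContinuousLinearMap L).hasFDerivAt.comp_hasDerivAt s h2
  exact h3

theorem hasDerivAt_Zm (hc : ∀ j a, 0 ≤ c j a) (hx : 0 ≤ x) :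
    HasDerivAt (fun x => Zm A y c x) (diagonal (fun a => (Hd y c x a : ℂ))) x :=
  (hasDerivAt_diag fun a => hasDerivAt_dd hc hx a).const_add A

theorem hasDerivAt_tau (hA : A.PosDef) (hy : ∀ j, 0 ≤ y j) (hc : ∀ j a, 0 ≤ c j a)
    (hx : 0 ≤ x) : HasDerivAt (fun x => tau A y c x) (-(tht A y c x)) x := by
  have hu : IsUnit (Zm A y c x) := (Zm_posDef hA hy hc hx).isUnit
  exact hasDerivAt_inv' (hasDerivAt_Zm hc hx) hu

theorem hasDerivAt_entry {F : ℝ → Matrix n n ℂ} {F' : Matrix n n ℂ} {s : ℝ}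
    (hF : HasDerivAt F F' s) (a b : n) : HasDerivAt (fun s => F s a b) (F' a b) s := by
  have h := (LinearMap.toContinuousLinearMap
    ((LinearMap.proj b : (n → ℂ) →ₗ[ℝ] ℂ) ∘ₗ (LinearMap.proj a : (n → n → ℂ) →ₗ[ℝ] (n → ℂ)) :
      Matrix n n ℂ →ₗ[ℝ] ℂ)).hasFDerivAt.comp_hasDerivAt s hF
  exact h

theorem hasDerivAt_normSq {f : ℝ → ℂ} {f' : ℂ} {s : ℝ} (hf : HasDerivAt f f' s) :
    HasDerivAt (fun s => Complex.normSq (f s)) (2 * (f' * star (f s)).re) s := by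
  have hr : HasDerivAt (fun s => (f s).re) f'.re s :=
    (Complex.reCLM.hasFDerivAt.comp_hasDerivAt s hf)
  have hi : HasDerivAt (fun s => (f s).im) f'.im s :=
    (Complex.imCLM.hasFDerivAt.comp_hasDerivAt s hf)
  have h := (hr.mul hr).add (hi.mul hi)
  have e : (fun s => Complex.normSq (f s)) = fun s => (f s).re * (f s).re + (f s).im * (f s).im := by
    funext s; rw [Complex.normSq_apply]
  rw [e]
  refine h.congr_deriv ?_
  simp [Complex.mul_re]
  ring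

theorem hasDerivAt_Kc (hc : ∀ j a, 0 ≤ c j a) (hx : 0 ≤ x) (a b : n) :
    HasDerivAt (fun x => Kc y c x a b) (Kc' y c x a b) x := by
  have h1 : ∀ j ∈ (Finset.univ : Finset J), HasDerivAt
      (fun x => y j * (sr c x j a - sr c x j b) ^ 2)
      (y j * (-(2 * ((sr c x j a - sr c x j b) ^ 2 * (sr c x j a + sr c x j b))))) x := by
    intro j _
    have h2 := (((hasDerivAt_sr hc hx j a).sub (hasDerivAt_sr hc hx j b)).pow 2).const_mul (y j)
    refine h2.congr_deriv ?_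
    simp
    ring
  have h5 := HasDerivAt.fun_sum h1
  refine h5.congr_deriv ?_
  rw [Kc', Finset.mul_sum, ← Finset.sum_neg_distrib]
  refine Finset.sum_congr rfl fun j _ => ?_
  ring

theorem hasDerivAt_Qf (hA : A.PosDef) (hy : ∀ j, 0 ≤ y j) (hc : ∀ j a, 0 ≤ c j a)
    (hx : 0 ≤ x) : HasDerivAt (fun x => Qf A y c x) (Qf' A y c x) x := by
  refine HasDerivAt.fun_sum fun a _ => HasDerivAt.fun_sum fun b _ => ?_
  have h1 := hasDerivAt_normSq (hasDerivAt_entry (hasDerivAt_tau hA hy hc hx) a b)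
  have h2 := h1.mul (hasDerivAt_Kc (y := y) hc hx a b)
  refine h2.congr_deriv ?_
  rw [Matrix.neg_apply, neg_mul, Complex.neg_re]
  ring

end

/-- **Kelvin inversion**: `Q` is antitone on `[0, ∞)`. -/
theorem Qf_antitoneOn {A : Matrix n n ℂ} {y : J → ℝ} {c : J → n → ℝ} (hA : A.PosDef)
    (hy : ∀ j, 0 ≤ y j) {j0 : J} (hy0 : 0 < y j0) (hc : ∀ j a, 0 ≤ c j a)
    (hc0 : ∀ a, c j0 a = 0) :
    AntitoneOn (fun x => Qf A y c x) (Ici 0) := by
  refine antitoneOn_of_deriv_nonpos (convex_Ici 0) ?_ ?_ ?_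
  · intro x hx
    exact (hasDerivAt_Qf hA hy hc hx).continuousAt.continuousWithinAt
  · intro x hx
    rw [interior_Ici] at hx
    exact (hasDerivAt_Qf hA hy hc (le_of_lt hx)).differentiableAt.differentiableWithinAt
  · intro x hx
    rw [interior_Ici] at hx
    rw [(hasDerivAt_Qf hA hy hc (le_of_lt hx)).deriv]
    exact Qf'_nonpos hA hy hy0 hc hc0 hx

/-- helper98's form -/
theorem kelvin {n J : Type*} [Fintype n] [DecidableEq n] [Fintype J] (P : Matrix n n ℂ)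
    (hP : P.PosDef) (y : J → ℝ) (hy : ∀ j, 0 ≤ y j) (j0 : J) (hy0 : 0 < y j0) (c : J → n → ℝ)
    (hc : ∀ j a, 0 ≤ c j a) (hc0 : ∀ a, c j0 a = 0) {x : ℝ} (hx : 0 ≤ x) :
    ∑ a, ∑ b, Complex.normSq ((P⁻¹ + diagonal (fun a =>
        ((x * ∑ j, y j / (1 + x * c j a) : ℝ) : ℂ)))⁻¹ a b) *
        ∑ j, y j * (c j a / (1 + x * c j a) - c j b / (1 + x * c j b)) ^ 2 ≤
      ∑ a, ∑ b, Complex.normSq (P a b) * ∑ j, y j * (c j a - c j b) ^ 2 := by
  have h := Qf_antitoneOn (A := P⁻¹) hP.inv hy hy0 hc hc0 (self_mem_Ici (a := (0:ℝ))) hx hx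
  have e0 : Qf P⁻¹ y c 0 = ∑ a, ∑ b, Complex.normSq (P a b) * ∑ j, y j * (c j a - c j b) ^ 2 := by
    have h1 : tau P⁻¹ y c 0 = P := by
      have h2 : Zm P⁻¹ y c 0 = P⁻¹ := by
        simp [Zm, dd]
      rw [tau, h2, Matrix.nonsing_inv_nonsing_inv]
      exact (Matrix.isUnit_iff_isUnit_det _).1 hP.isUnit
    simp only [Qf, h1, Kc, sr, gg, zero_mul, add_zero, inv_one, mul_one]
  have e1 : Qf P⁻¹ y c x = ∑ a, ∑ b, Complex.normSq ((P⁻¹ + diagonal (fun a =>
        ((x * ∑ j, y j / (1 + x * c j a) : ℝ) : ℂ)))⁻¹ a b) *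
        ∑ j, y j * (c j a / (1 + x * c j a) - c j b / (1 + x * c j b)) ^ 2 := by
    have h3 : (fun a => ((x * ∑ j, y j / (1 + x * c j a) : ℝ) : ℂ)) =
        fun a => ((dd y c x a : ℝ) : ℂ) := by
      funext a
      congr 1
      rw [dd, Finset.mul_sum]
      refine Finset.sum_congr rfl fun j _ => ?_
      rw [gg, div_eq_mul_inv]
      ring
    rw [h3]
    simp only [Qf, tau, Zm, Kc, sr, gg, div_eq_mul_inv]
  rw [← e0, ← e1]
  exact h

end Pool.Agent.Lib_helper77.OPS
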